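import Pool.Agent.Helper34.PU.Goals

/-! Packet VIRT of MP_8060f4_co. -/

set_option autoImplicit false

open Finset Function
open scoped Classical

namespace Pool.Agent.Helper26.PU

open Pool.Agent.Helper34.PU

/-! ### Averages -/

theorem avg_const {α : Type} {A : Finset α} (hA : A.Nonempty) (c : ℝ) :
    avg A (fun _ => c) = c := by
  unfold avg
  rw [Finset.sum_const, nsmul_eq_mul, mul_comm, mul_div_assoc, div_self, mul_one]
  exact_mod_cast hA.card_pos.ne'

theorem avg_mono {α : Type} {A : Finset α} {f g : α → ℝ} (h : ∀ i ∈ A, f i ≤ g i) :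
    avg A f ≤ avg A g := by
  unfold avg
  exact div_le_div_of_nonneg_right (Finset.sum_le_sum h) (by positivity)

theorem avg_congr {α : Type} {A : Finset α} {f g : α → ℝ} (h : ∀ i ∈ A, f i = g i) :
    avg A f = avg A g := by
  unfold avg
  rw [Finset.sum_congr rfl h]

theorem avg_nonneg {α : Type} {A : Finset α} {f : α → ℝ} (h : ∀ i ∈ A, 0 ≤ f i) :
    0 ≤ avg A f := by
  unfold avg
  exact div_nonneg (Finset.sum_nonneg h) (by positivity)

theorem avg_le_one {α : Type} {A : Finset α} {f : α → ℝ} (h : ∀ i ∈ A, f i ≤ 1) :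
    avg A f ≤ 1 := by
  rcases A.eq_empty_or_nonempty with h0 | h0
  · subst h0
    unfold avg
    simp
  · exact (avg_mono h).trans (le_of_eq (avg_const h0 1))

theorem avg_add {α : Type} (A : Finset α) (f g : α → ℝ) :
    avg A (fun i => f i + g i) = avg A f + avg A g := by
  unfold avg
  rw [Finset.sum_add_distrib, add_div]

theorem avg_sub {α : Type} (A : Finset α) (f g : α → ℝ) :
    avg A (fun i => f i - g i) = avg A f - avg A g := by
  unfold avg
  rw [Finset.sum_sub_distrib, sub_div]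

theorem avg_mul_left {α : Type} (A : Finset α) (c : ℝ) (f : α → ℝ) :
    avg A (fun i => c * f i) = c * avg A f := by
  unfold avg
  rw [← Finset.mul_sum, mul_div_assoc]

theorem avg_mul_right {α : Type} (A : Finset α) (c : ℝ) (f : α → ℝ) :
    avg A (fun i => f i * c) = avg A f * c := by
  unfold avg
  rw [← Finset.sum_mul, div_mul_eq_mul_div]

theorem avg_sum {α ι : Type} (A : Finset α) (S : Finset ι) (f : ι → α → ℝ) :
    avg A (fun i => ∑ v ∈ S, f v i) = ∑ v ∈ S, avg A (f v) := by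
  unfold avg
  rw [Finset.sum_comm, Finset.sum_div]

theorem avg_abs_le {α : Type} {A : Finset α} {f : α → ℝ} {g : α → ℝ} (h : ∀ i ∈ A, |f i| ≤ g i) :
    |avg A f| ≤ avg A g := by
  rw [abs_le]
  constructor
  · have h1 : avg A (fun i => -1 * g i) ≤ avg A f :=
      avg_mono fun i hi => by have := (abs_le.1 (h i hi)).1; linarith
    rw [avg_mul_left] at h1
    linarith
  · exact avg_mono fun i hi => (abs_le.1 (h i hi)).2

theorem prod_diff {ι : Type} (S : Finset ι) (a b : ι → ℝ) (ha : ∀ i ∈ S, 0 ≤ a i ∧ a i ≤ 1)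
    (hb : ∀ i ∈ S, 0 ≤ b i ∧ b i ≤ 1) :
    |∏ i ∈ S, a i - ∏ i ∈ S, b i| ≤ ∑ i ∈ S, |a i - b i| := by
  induction S using Finset.induction_on with
  | empty => simp
  | insert i S hi ih =>
    rw [Finset.prod_insert hi, Finset.prod_insert hi, Finset.sum_insert hi]
    have h1 := ih (fun j hj => ha j (Finset.mem_insert_of_mem hj))
      (fun j hj => hb j (Finset.mem_insert_of_mem hj))
    have ha0 := ha i (Finset.mem_insert_self i S)
    have hb0 := hb i (Finset.mem_insert_self i S)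
    have hpb0 : 0 ≤ ∏ j ∈ S, a j :=
      Finset.prod_nonneg fun j hj => (ha j (Finset.mem_insert_of_mem hj)).1
    have hpb1 : ∏ j ∈ S, a j ≤ 1 := Finset.prod_le_one
      (fun j hj => (ha j (Finset.mem_insert_of_mem hj)).1)
      (fun j hj => (ha j (Finset.mem_insert_of_mem hj)).2)
    have e : a i * ∏ j ∈ S, a j - b i * ∏ j ∈ S, b j =
        (a i - b i) * ∏ j ∈ S, a j + b i * (∏ j ∈ S, a j - ∏ j ∈ S, b j) := by ring
    rw [e]
    refine (abs_add_le _ _).trans (add_le_add ?_ ?_)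
    · rw [abs_mul, abs_of_nonneg hpb0]
      exact mul_le_of_le_one_right (abs_nonneg _) hpb1
    · rw [abs_mul, abs_of_nonneg hb0.1]
      exact (mul_le_of_le_one_left (abs_nonneg _) hb0.2).trans h1

/-- Marginals of a power. -/
theorem marginal {α ι κ : Type} [Fintype ι] [Fintype κ] [DecidableEq ι] [DecidableEq κ]
    (B : Finset α) (hB : B.Nonempty)
    (q : ι → κ) (hq : Injective q) (G : (ι → α) → ℝ) :
    avg (Fintype.piFinset (fun _ : κ => B)) (fun i => G (fun I => i (q I))) =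
      avg (Fintype.piFinset (fun _ : ι => B)) G := by
  set M : ℕ := ∏ p : κ, (if ∃ I, q I = p then 1 else B.card) with hM
  have hfib : ∀ y ∈ Fintype.piFinset (fun _ : ι => B),
      ((Fintype.piFinset (fun _ : κ => B)).filter (fun i => (fun I => i (q I)) = y)).card = M := by
    intro y hy
    rw [Fintype.mem_piFinset] at hy
    have h1 : (Fintype.piFinset (fun _ : κ => B)).filter (fun i => (fun I => i (q I)) = y) =
        Fintype.piFinset (fun p : κ => if h : ∃ I, q I = p then {y h.choose} else B) := by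
      ext i
      rw [Finset.mem_filter, Fintype.mem_piFinset, Fintype.mem_piFinset]
      constructor
      · rintro ⟨h2, h3⟩ p
        by_cases h : ∃ I, q I = p
        · rw [dif_pos h, Finset.mem_singleton, ← h3]
          show i p = i (q h.choose)
          rw [h.choose_spec]
        · rw [dif_neg h]
          exact h2 p
      · intro h2
        have h4 : ∀ I, i (q I) = y I := by
          intro I
          have h3 := h2 (q I)
          have hex : ∃ I', q I' = q I := ⟨I, rfl⟩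
          rw [dif_pos hex, Finset.mem_singleton] at h3
          rw [h3]
          congr 1
          exact hq hex.choose_spec
        refine ⟨fun p => ?_, funext h4⟩
        by_cases h : ∃ I, q I = p
        · obtain ⟨I, hI⟩ := h
          rw [← hI, h4 I]
          exact hy I
        · have h3 := h2 p
          rw [dif_neg h] at h3
          exact h3
    rw [h1, Fintype.card_piFinset, hM]
    refine Finset.prod_congr rfl fun p _ => ?_
    by_cases h : ∃ I, q I = p
    · rw [dif_pos h, if_pos h, Finset.card_singleton]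
    · rw [dif_neg h, if_neg h]
  have hsum : ∀ G : (ι → α) → ℝ, ∑ i ∈ Fintype.piFinset (fun _ : κ => B), G (fun I => i (q I)) =
      M * ∑ y ∈ Fintype.piFinset (fun _ : ι => B), G y := by
    intro G
    rw [Finset.mul_sum, ← Finset.sum_fiberwise_of_maps_to
      (s := Fintype.piFinset (fun _ : κ => B)) (t := Fintype.piFinset (fun _ : ι => B))
      (g := fun i => (fun I => i (q I)))]
    · refine Finset.sum_congr rfl fun y hy => ?_
      rw [← hfib y hy, ← nsmul_eq_mul, ← Finset.sum_const]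
      refine Finset.sum_congr rfl fun i hi => ?_
      rw [(Finset.mem_filter.1 hi).2]
    · intro i hi
      rw [Fintype.mem_piFinset] at hi ⊢
      exact fun I => hi (q I)
  have h1 := hsum G
  have h2 := hsum (fun _ => 1)
  simp only [Finset.sum_const, nsmul_eq_mul, mul_one] at h2
  have hne : (Fintype.piFinset (fun _ : κ => B)).Nonempty := by
    rw [Fintype.piFinset_nonempty]
    exact fun _ => hB
  have hpos : (0 : ℝ) < ((Fintype.piFinset (fun _ : κ => B)).card : ℝ) := by
    exact_mod_cast hne.card_pos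
  have hM0 : (M : ℝ) ≠ 0 := by
    intro h0
    rw [h2, h0, zero_mul] at hpos
    exact lt_irrefl _ hpos
  unfold avg
  rw [h1, h2, mul_div_mul_left _ _ hM0]

/-! ### The product over a template -/

/-- The product. -/
noncomputable def FF {N Q r L k T0 β : ℕ} (s : ℕ)
    (w : Fin r → Fin Q → Fin Q → Finset (Fin k) → Fin L → Fin L → ℝ)
    (lab : Fin Q → Finset (Fin k) → Fin N → Fin L) (c : Fin r) (j0 : Fin T0 → Fin k)
    (q : Idx T0 β → Fin Q) (y : Idx T0 β → Fin N) : ℝ :=
  ∏ P ∈ prs s q, w c (q P.1) (q P.2) ((P.1.1 ∩ P.2.1).image j0)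
        (lab (q P.1) ((P.1.1 ∩ P.2.1).image j0) (y P.1))
        (lab (q P.2) ((P.1.1 ∩ P.2.1).image j0) (y P.2))

theorem FF_nonneg {N Q r L k T0 β : ℕ} (s : ℕ)
    (w : Fin r → Fin Q → Fin Q → Finset (Fin k) → Fin L → Fin L → ℝ)
    (hw : ∀ c p q U a b, 0 ≤ w c p q U a b)
    (lab : Fin Q → Finset (Fin k) → Fin N → Fin L) (c : Fin r) (j0 : Fin T0 → Fin k)
    (q : Idx T0 β → Fin Q) (y : Idx T0 β → Fin N) : 0 ≤ FF s w lab c j0 q y :=
  Finset.prod_nonneg fun _ _ => hw _ _ _ _ _ _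

theorem w_le_one {Q r L k : ℕ} (w : Fin r → Fin Q → Fin Q → Finset (Fin k) → Fin L → Fin L → ℝ)
    (hw : ∀ c p q U a b, 0 ≤ w c p q U a b) (hw1 : ∀ p q U a b, ∑ c, w c p q U a b = 1)
    (c : Fin r) (p q : Fin Q) (U : Finset (Fin k)) (a b : Fin L) : w c p q U a b ≤ 1 := by
  rw [← hw1 p q U a b]
  exact Finset.single_le_sum (f := fun c => w c p q U a b) (fun c _ => hw c p q U a b)
    (Finset.mem_univ c)

/-- Ramsey, averaged. -/
theorem ram_avg {N Q r L k T0 β : ℕ} (s : ℕ) (hR : RamOK r s T0 (Fintype.card (Idx T0 β)) Q k)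
    (w : Fin r → Fin Q → Fin Q → Finset (Fin k) → Fin L → Fin L → ℝ)
    (hw : ∀ c p q U a b, 0 ≤ w c p q U a b) (hw1 : ∀ p q U a b, ∑ c, w c p q U a b = 1)
    (lab : Fin Q → Finset (Fin k) → Fin N → Fin L) (B : Finset (Fin N)) (hB : B.Nonempty) :
    1 ≤ ∑ c : Fin r, ∑ g ∈ univ.filter (fun g : Fin (Fintype.card (Idx T0 β)) → Fin Q =>
        StrictMono g), ∑ j ∈ univ.filter (fun j : Fin T0 → Fin k => StrictMono j),
        avg (Fintype.piFinset (fun _ : Idx T0 β => B))
          (FF s w lab c j (fun I => g (Fintype.equivFin (Idx T0 β) I))) := by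
  have hwle := w_le_one w hw hw1
  have key : ∀ i : Fin Q → Fin N, 1 ≤ ∑ c : Fin r,
      ∑ g ∈ univ.filter (fun g : Fin (Fintype.card (Idx T0 β)) → Fin Q =>
        StrictMono g), ∑ j ∈ univ.filter (fun j : Fin T0 → Fin k => StrictMono j),
        FF s w lab c j (fun I => g (Fintype.equivFin (Idx T0 β) I))
          (fun I => i (g (Fintype.equivFin (Idx T0 β) I))) := by
    intro i
    refine (hR (fun c p q U => w c p q U (lab p U (i p)) (lab q U (i q)))
      (fun c p q U => hw _ _ _ _ _ _) (fun p q U => hw1 _ _ _ _ _)).trans ?_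
    refine Finset.sum_le_sum fun c _ => Finset.sum_le_sum fun g hg =>
      Finset.sum_le_sum fun j hj => ?_
    have hgm : StrictMono g := (Finset.mem_filter.1 hg).2
    -- reindex
    set e := Fintype.equivFin (Idx T0 β) with he
    set f : Fin (Fintype.card (Idx T0 β)) → Fin (Fintype.card (Idx T0 β)) → Finset (Fin T0) → ℝ :=
      fun a b U => w c (g a) (g b) (U.image j) (lab (g a) (U.image j) (i (g a)))
        (lab (g b) (U.image j) (i (g b))) with hf
    have hf0 : ∀ a b U, 0 ≤ f a b U := fun a b U => hw _ _ _ _ _ _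
    have hf1 : ∀ a b U, f a b U ≤ 1 := fun a b U => hwle _ _ _ _ _ _
    have h1 : ∏ P ∈ univ.filter (fun P : Fin (Fintype.card (Idx T0 β)) ×
          Fin (Fintype.card (Idx T0 β)) => P.1 < P.2),
          ∏ U ∈ univ.filter (fun U : Finset (Fin T0) => U.card = s), f P.1 P.2 U =
        ∏ P ∈ univ.filter (fun P : Idx T0 β × Idx T0 β => e P.1 < e P.2),
          ∏ U ∈ univ.filter (fun U : Finset (Fin T0) => U.card = s), f (e P.1) (e P.2) U := by
      symm
      refine Finset.prod_nbij' (fun P => (e P.1, e P.2)) (fun P => (e.symm P.1, e.symm P.2))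
        ?_ ?_ ?_ ?_ ?_
      · intro P hP
        rw [Finset.mem_filter] at hP ⊢
        exact ⟨Finset.mem_univ _, hP.2⟩
      · intro P hP
        rw [Finset.mem_filter] at hP ⊢
        refine ⟨Finset.mem_univ _, ?_⟩
        simpa using hP.2
      · intro P _
        simp
      · intro P _
        simp
      · intro P _
        rfl
    have h2 : ∏ P ∈ univ.filter (fun P : Idx T0 β × Idx T0 β => e P.1 < e P.2),
          ∏ U ∈ univ.filter (fun U : Finset (Fin T0) => U.card = s), f (e P.1) (e P.2) U ≤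
        ∏ P ∈ univ.filter (fun P : Idx T0 β × Idx T0 β => e P.1 < e P.2),
          if (P.1.1 ∩ P.2.1).card = s then f (e P.1) (e P.2) (P.1.1 ∩ P.2.1) else 1 := by
      refine Finset.prod_le_prod (fun P _ => Finset.prod_nonneg fun U _ => hf0 _ _ _) fun P _ => ?_
      by_cases hc : (P.1.1 ∩ P.2.1).card = s
      · rw [if_pos hc]
        have hmem : (P.1.1 ∩ P.2.1) ∈ univ.filter (fun U : Finset (Fin T0) => U.card = s) :=
          Finset.mem_filter.2 ⟨Finset.mem_univ _, hc⟩
        rw [← Finset.mul_prod_erase _ _ hmem]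
        exact mul_le_of_le_one_right (hf0 _ _ _)
          (Finset.prod_le_one (fun U _ => hf0 _ _ _) fun U _ => hf1 _ _ _)
      · rw [if_neg hc]
        exact Finset.prod_le_one (fun U _ => hf0 _ _ _) fun U _ => hf1 _ _ _
    have h3 : ∏ P ∈ univ.filter (fun P : Idx T0 β × Idx T0 β => e P.1 < e P.2),
          (if (P.1.1 ∩ P.2.1).card = s then f (e P.1) (e P.2) (P.1.1 ∩ P.2.1) else 1) =
        FF s w lab c j (fun I => g (e I)) (fun I => i (g (e I))) := by
      unfold FF
      rw [← Finset.prod_filter, Finset.filter_filter]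
      refine Finset.prod_congr ?_ fun P _ => rfl
      unfold prs
      ext P
      simp only [Finset.mem_filter, Finset.mem_univ, true_and]
      rw [hgm.lt_iff_lt]
    exact (le_of_eq h1).trans (h2.trans (le_of_eq h3))
  have hne : (Fintype.piFinset (fun _ : Fin Q => B)).Nonempty := by
    rw [Fintype.piFinset_nonempty]
    exact fun _ => hB
  have h1 : (1 : ℝ) ≤ avg (Fintype.piFinset (fun _ : Fin Q => B)) (fun i => ∑ c : Fin r,
      ∑ g ∈ univ.filter (fun g : Fin (Fintype.card (Idx T0 β)) → Fin Q =>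
        StrictMono g), ∑ j ∈ univ.filter (fun j : Fin T0 → Fin k => StrictMono j),
        FF s w lab c j (fun I => g (Fintype.equivFin (Idx T0 β) I))
          (fun I => i (g (Fintype.equivFin (Idx T0 β) I)))) := by
    rw [← avg_const hne 1]
    exact avg_mono fun i _ => key i
  refine h1.trans (le_of_eq ?_)
  rw [avg_sum]
  refine Finset.sum_congr rfl fun c _ => ?_
  rw [avg_sum]
  refine Finset.sum_congr rfl fun g hg => ?_
  rw [avg_sum]
  refine Finset.sum_congr rfl fun j _ => ?_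
  have hgm : StrictMono g := (Finset.mem_filter.1 hg).2
  exact marginal B hB (fun I => g (Fintype.equivFin (Idx T0 β) I))
    (hgm.injective.comp (Fintype.equivFin (Idx T0 β)).injective) _

/-! ### Total variation -/

theorem tv' (h3 : TVStmt) {ι α Θ : Type} [Fintype ι] [inst : DecidableEq ι] [Fintype Θ]
    [inst2 : DecidableEq Θ] (A B : ι → Finset α) (lab : ι → α → Θ) (ψ : (ι → Θ) → ℝ) (hA : ∀ i, (A i).Nonempty)
    (hB : ∀ i, (B i).Nonempty) (hψ : ∀ v, 0 ≤ ψ v ∧ ψ v ≤ 1) :
    |avg (Fintype.piFinset A) (fun y => ψ (fun i => lab i (y i))) -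
      avg (Fintype.piFinset B) (fun y => ψ (fun i => lab i (y i)))| ≤
      ∑ i, ∑ ϑ : Θ, |avg (A i) (fun z => if lab i z = ϑ then 1 else 0) -
        avg (B i) (fun z => if lab i z = ϑ then 1 else 0)| := by
  have e : inst = (fun a b => Classical.propDecidable (a = b)) := Subsingleton.elim _ _
  have e2 : inst2 = (fun a b => Classical.propDecidable (a = b)) := Subsingleton.elim _ _
  subst e
  subst e2
  exact h3 ι α Θ A B lab ψ hA hB hψ

theorem FF_tv (h3 : TVStmt) {N Q r L k T0 β : ℕ} (s : ℕ) (hL : 1 ≤ L)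
    (w : Fin r → Fin Q → Fin Q → Finset (Fin k) → Fin L → Fin L → ℝ)
    (hw : ∀ c p q U a b, 0 ≤ w c p q U a b) (hw1 : ∀ p q U a b, ∑ c, w c p q U a b = 1)
    (lab : Fin Q → Finset (Fin k) → Fin N → Fin L) (c : Fin r) (j0 : Fin T0 → Fin k)
    (hj : Injective j0) (q : Idx T0 β → Fin Q) (A B : Idx T0 β → Finset (Fin N))
    (hA : ∀ I, (A I).Nonempty) (hB : ∀ I, (B I).Nonempty) :
    |avg (Fintype.piFinset A) (FF s w lab c j0 q) - avg (Fintype.piFinset B) (FF s w lab c j0 q)| ≤
      ∑ I, ∑ ϑ : Finset (Fin k) → Fin L, |avg (A I) (ind s lab (q I) (I.1.image j0) ϑ) -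
        avg (B I) (ind s lab (q I) (I.1.image j0) ϑ)| := by
  set z0 : Fin L := ⟨0, hL⟩ with hz0
  set vec : Idx T0 β → Fin N → (Finset (Fin k) → Fin L) := fun I i U =>
    if U ⊆ I.1.image j0 ∧ U.card = s then lab (q I) U i else z0 with hvec
  set ψ : (Idx T0 β → (Finset (Fin k) → Fin L)) → ℝ := fun v =>
    ∏ P ∈ prs s q, w c (q P.1) (q P.2) ((P.1.1 ∩ P.2.1).image j0)
      (v P.1 ((P.1.1 ∩ P.2.1).image j0)) (v P.2 ((P.1.1 ∩ P.2.1).image j0)) with hψ
  have hwle := w_le_one w hw hw1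
  have h1 : ∀ y : Idx T0 β → Fin N, FF s w lab c j0 q y = ψ (fun I => vec I (y I)) := by
    intro y
    unfold FF
    rw [hψ]
    refine Finset.prod_congr rfl fun P hP => ?_
    have hc : (P.1.1 ∩ P.2.1).card = s := (Finset.mem_filter.1 hP).2.2
    have hc' : ((P.1.1 ∩ P.2.1).image j0).card = s := by
      rw [Finset.card_image_of_injective _ hj, hc]
    have e1 : vec P.1 (y P.1) ((P.1.1 ∩ P.2.1).image j0) =
        lab (q P.1) ((P.1.1 ∩ P.2.1).image j0) (y P.1) := by
      rw [hvec]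
      exact if_pos ⟨Finset.image_subset_image Finset.inter_subset_left, hc'⟩
    have e2 : vec P.2 (y P.2) ((P.1.1 ∩ P.2.1).image j0) =
        lab (q P.2) ((P.1.1 ∩ P.2.1).image j0) (y P.2) := by
      rw [hvec]
      exact if_pos ⟨Finset.image_subset_image Finset.inter_subset_right, hc'⟩
    simp only [e1, e2]
  have h2 : FF s w lab c j0 q = fun y => ψ (fun I => vec I (y I)) := funext h1
  rw [h2]
  refine (tv' h3 A B vec ψ hA hB fun v => ⟨Finset.prod_nonneg fun _ _ => hw _ _ _ _ _ _,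
    Finset.prod_le_one (fun _ _ => hw _ _ _ _ _ _) fun _ _ => hwle _ _ _ _ _ _⟩).trans ?_
  refine Finset.sum_le_sum fun I _ => Finset.sum_le_sum fun ϑ _ => ?_
  by_cases hsp : ∀ U : Finset (Fin k), ¬ (U ⊆ I.1.image j0 ∧ U.card = s) → ϑ U = z0
  · have e : ∀ z : Fin N, (if vec I z = ϑ then (1 : ℝ) else 0) =
        ind s lab (q I) (I.1.image j0) ϑ z := by
      intro z
      unfold ind
      by_cases h : vec I z = ϑ
      · rw [if_pos h, if_pos]
        intro U hU hUs
        rw [← h, hvec]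
        exact (if_pos ⟨hU, hUs⟩).symm
      · rw [if_neg h, if_neg]
        intro h'
        apply h
        funext U
        rw [hvec]
        by_cases hU : U ⊆ I.1.image j0 ∧ U.card = s
        · simp only [if_pos hU]
          exact h' U hU.1 hU.2
        · simp only [if_neg hU]
          exact (hsp U hU).symm
    simp only [e]
    exact le_refl _
  · have e : ∀ z : Fin N, (if vec I z = ϑ then (1 : ℝ) else 0) = 0 := by
      intro z
      rw [if_neg]
      intro h
      apply hsp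
      intro U hU
      rw [← h, hvec]
      exact if_neg hU
    simp only [e]
    have e0 : ∀ C : Finset (Fin N), avg C (fun _ => (0 : ℝ)) = 0 := by
      intro C
      unfold avg
      simp
    rw [e0, e0, sub_zero, abs_zero]
    exact abs_nonneg _

theorem FF_lip {N Q r L k T0 β : ℕ} (s : ℕ) (δ : ℝ)
    (w w' : Fin r → Fin Q → Fin Q → Finset (Fin k) → Fin L → Fin L → ℝ)
    (hw : ∀ c p q U a b, 0 ≤ w c p q U a b) (hw1 : ∀ p q U a b, ∑ c, w c p q U a b = 1)
    (hw' : ∀ c p q U a b, 0 ≤ w' c p q U a b) (hw1' : ∀ p q U a b, ∑ c, w' c p q U a b = 1)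
    (hd : ∀ c p q U a b, U.card = s → |w c p q U a b - w' c p q U a b| ≤ δ) (hδ : 0 ≤ δ)
    (lab : Fin Q → Finset (Fin k) → Fin N → Fin L) (c : Fin r) (j0 : Fin T0 → Fin k)
    (hj : Injective j0) (q : Idx T0 β → Fin Q) (y : Idx T0 β → Fin N) :
    |FF s w lab c j0 q y - FF s w' lab c j0 q y| ≤ (Fintype.card (Idx T0 β) : ℝ) ^ 2 * δ := by
  have hwle := w_le_one w hw hw1
  have hwle' := w_le_one w' hw' hw1'
  unfold FF
  refine (prod_diff _ _ _ (fun P _ => ⟨hw _ _ _ _ _ _, hwle _ _ _ _ _ _⟩)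
    (fun P _ => ⟨hw' _ _ _ _ _ _, hwle' _ _ _ _ _ _⟩)).trans ?_
  have h1 : ∀ P ∈ prs s q, |w c (q P.1) (q P.2) ((P.1.1 ∩ P.2.1).image j0)
        (lab (q P.1) ((P.1.1 ∩ P.2.1).image j0) (y P.1))
        (lab (q P.2) ((P.1.1 ∩ P.2.1).image j0) (y P.2)) -
      w' c (q P.1) (q P.2) ((P.1.1 ∩ P.2.1).image j0)
        (lab (q P.1) ((P.1.1 ∩ P.2.1).image j0) (y P.1))
        (lab (q P.2) ((P.1.1 ∩ P.2.1).image j0) (y P.2))| ≤ δ := by
    intro P hP
    apply hd
    rw [Finset.card_image_of_injective _ hj]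
    exact (Finset.mem_filter.1 hP).2.2
  refine (Finset.sum_le_sum h1).trans ?_
  rw [Finset.sum_const, nsmul_eq_mul]
  refine mul_le_mul_of_nonneg_right ?_ hδ
  have h2 : (prs s q).card ≤ Fintype.card (Idx T0 β × Idx T0 β) := Finset.card_le_univ _
  rw [Fintype.card_prod] at h2
  rw [sq]
  exact_mod_cast h2

/-! ### Correlation -/

theorem pr0 {β k T D N : ℕ} {γ : ℝ} {x : Fin N → Pt T D} (hD : 0 < D) (hPR : PR β k γ x)
    {K : Finset (Fin T)} (hK : K.card ≤ k) {F : Pt T D → ℝ} (hF : PF β ∅ K F) :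
    |avg univ (fun i => F (x i)) - avg univ F| ≤ γ := by
  have h := hPR ∅ K (fun _ => ⟨0, hD⟩) F (Finset.empty_subset _) (by simp) hK hF
  have e1 : cell x ∅ (fun _ => (⟨0, hD⟩ : Fin D)) = univ := by
    unfold cell
    rw [Finset.filter_true_of_mem]
    intro i _ t ht
    exact absurd ht (Finset.notMem_empty t)
  have e2 : blk ∅ (fun _ : Fin T => (⟨0, hD⟩ : Fin D)) = univ := by
    unfold blk
    rw [Finset.filter_true_of_mem]
    intro i _ t ht
    exact absurd ht (Finset.notMem_empty t)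
  rw [e1, e2] at h
  exact h

/-- The cell average of an indicator of labels. -/
noncomputable def Pa {T D N Q L k : ℕ} (s : ℕ) (x : Fin N → Pt T D) (κ : Fin k → Fin T)
    (lab : Fin Q → Finset (Fin k) → Fin N → Fin L) (q : Fin Q) (I : Finset (Fin k))
    (ϑ : Finset (Fin k) → Fin L) (φ : Pt T D) : ℝ :=
  avg (cell x (I.image κ) φ) (ind s lab q I ϑ)

theorem ind_mem {N Q L k : ℕ} (s : ℕ) (lab : Fin Q → Finset (Fin k) → Fin N → Fin L)
    (q : Fin Q) (I : Finset (Fin k)) (ϑ : Finset (Fin k) → Fin L) (i : Fin N) :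
    0 ≤ ind s lab q I ϑ i ∧ ind s lab q I ϑ i ≤ 1 := by
  unfold ind
  split_ifs
  · exact ⟨zero_le_one, le_refl _⟩
  · exact ⟨le_refl _, zero_le_one⟩

theorem Pa_mem {T D N Q L k : ℕ} (s : ℕ) (x : Fin N → Pt T D) (κ : Fin k → Fin T)
    (lab : Fin Q → Finset (Fin k) → Fin N → Fin L) (q : Fin Q) (I : Finset (Fin k))
    (ϑ : Finset (Fin k) → Fin L) (φ : Pt T D) :
    0 ≤ Pa s x κ lab q I ϑ φ ∧ Pa s x κ lab q I ϑ φ ≤ 1 :=
  ⟨avg_nonneg fun i _ => (ind_mem s lab q I ϑ i).1, avg_le_one fun i _ => (ind_mem s lab q I ϑ i).2⟩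

theorem Pa_dep {T D N Q L k : ℕ} (s : ℕ) (x : Fin N → Pt T D) (κ : Fin k → Fin T)
    (lab : Fin Q → Finset (Fin k) → Fin N → Fin L) (q : Fin Q) (I : Finset (Fin k))
    (ϑ : Finset (Fin k) → Fin L) : Dep (I.image κ) (Pa s x κ lab q I ϑ) := by
  intro φ ψ h
  unfold Pa
  have : cell x (I.image κ) φ = cell x (I.image κ) ψ := by
    unfold cell
    refine Finset.filter_congr fun i _ => ?_
    constructor
    · intro h' t ht
      rw [h' t ht, h t ht]
    · intro h' t ht
      rw [h' t ht, h t ht]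
  rw [this]

theorem corr (h1 : PFLibStmt) {β s T D N Q L k : ℕ} {γ δ : ℝ} (x : Fin N → Pt T D)
    (κ : Fin k → Fin T) (lab : Fin Q → Finset (Fin k) → Fin N → Fin L) (hD : 0 < D)
    (hPR : PR β k γ x) (hX : XGood β s γ x κ lab) {S : Type} [DecidableEq S]
    (σ : Pt T D → S) (v : S) (hv : PF β ∅ (univ.image κ) (fun φ => if σ φ = v then 1 else 0))
    (q : Fin Q) (I : Finset (Fin k)) (ϑ : Finset (Fin k) → Fin L) (hI : I.card = β)
    (hlip : ∀ φ ψ, σ φ = v → σ ψ = v → |Pa s x κ lab q I ϑ φ - Pa s x κ lab q I ϑ ψ| ≤ δ)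
    (hfib : (univ.filter (fun i : Fin N => σ (x i) = v)).Nonempty) (φ : Pt T D) (hφ : σ φ = v) :
    avg univ (fun φ => if σ φ = v then (1 : ℝ) else 0) * |Pa s x κ lab q I ϑ φ -
      avg (univ.filter (fun i : Fin N => σ (x i) = v)) (ind s lab q I ϑ)| ≤
      avg univ (fun φ => if σ φ = v then (1 : ℝ) else 0) * δ + 3 * γ := by
  set one : Pt T D → ℝ := fun φ => if σ φ = v then (1 : ℝ) else 0 with hone
  set π : ℝ := avg univ one with hπ
  set Fib : Finset (Fin N) := univ.filter (fun i : Fin N => σ (x i) = v) with hFib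
  set μ : ℝ := avg Fib (ind s lab q I ϑ) with hμ
  have hone0 : ∀ φ, 0 ≤ one φ := by
    intro φ
    rw [hone]
    show (0 : ℝ) ≤ if σ φ = v then (1 : ℝ) else 0
    split_ifs
    · exact zero_le_one
    · exact le_refl _
  have hπ0 : 0 ≤ π := avg_nonneg fun φ _ => hone0 φ
  have hK : (univ.image κ : Finset (Fin T)).card ≤ k :=
    Finset.card_image_le.trans (by rw [Finset.card_univ, Fintype.card_fin])
  have hPF : PF β ∅ (univ.image κ) (Pa s x κ lab q I ϑ) := by
    refine h1.1 β T D ∅ (univ.image κ) (I.image κ) _ (Finset.empty_subset _)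
      (Finset.image_subset_image (Finset.subset_univ _)) ?_ ?_ (Pa_dep s x κ lab q I ϑ)
    · exact Finset.card_image_le.trans hI.le
    · intro φ
      rw [abs_le]
      have := Pa_mem s x κ lab q I ϑ φ
      exact ⟨by linarith [this.1], this.2⟩
  have hPF2 : PF β ∅ (univ.image κ) (fun φ => Pa s x κ lab q I ϑ φ * one φ) := by
    have := h1.2.1 β T D ∅ _ _ _ _ hPF hv
    rw [Finset.union_self] at this
    exact this
  set A : ℝ := avg univ (fun φ => Pa s x κ lab q I ϑ φ * one φ) with hA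
  have hA1 : |avg univ (fun i => Pa s x κ lab q I ϑ (x i) * one (x i)) - A| ≤ γ :=
    pr0 hD hPR hK hPF2
  have hA2 : |avg univ (fun i => ind s lab q I ϑ i * one (x i)) -
      avg univ (fun i => Pa s x κ lab q I ϑ (x i) * one (x i))| ≤ γ := by
    have h := hX q I ϑ one hI hv
    rw [← avg_sub]
    refine le_of_eq_of_le ?_ h
    congr 2
    funext i
    unfold Pa
    ring
  have hA3 : avg univ (fun i => ind s lab q I ϑ i * one (x i)) =
      avg univ (fun i => one (x i)) * μ := by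
    have e1 : ∑ i : Fin N, ind s lab q I ϑ i * one (x i) = ∑ i ∈ Fib, ind s lab q I ϑ i := by
      rw [hFib, Finset.sum_filter]
      refine Finset.sum_congr rfl fun i _ => ?_
      rw [hone]
      show ind s lab q I ϑ i * (if σ (x i) = v then (1 : ℝ) else 0) = _
      split_ifs
      · rw [mul_one]
      · rw [mul_zero]
    have e2 : ∑ i : Fin N, one (x i) = (Fib.card : ℝ) := by
      rw [hFib, Finset.card_eq_sum_ones, Finset.sum_filter]
      push_cast
      rfl
    have hc : (Fib.card : ℝ) ≠ 0 := by exact_mod_cast hfib.card_pos.ne'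
    rw [hμ]
    unfold avg
    rw [e1, e2]
    field_simp
  have hA4 : |avg univ (fun i => one (x i)) - π| ≤ γ := pr0 hD hPR hK hv
  have hμ0 : 0 ≤ μ := avg_nonneg fun i _ => (ind_mem s lab q I ϑ i).1
  have hμ1 : μ ≤ 1 := avg_le_one fun i _ => (ind_mem s lab q I ϑ i).2
  have hA5 : |π * Pa s x κ lab q I ϑ φ - A| ≤ π * δ := by
    have e1 : π * Pa s x κ lab q I ϑ φ - A =
        avg univ (fun ψ => (Pa s x κ lab q I ϑ φ - Pa s x κ lab q I ϑ ψ) * one ψ) := by
      rw [hπ, hA, ← avg_mul_right, ← avg_sub]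
      congr 1
      funext ψ
      ring
    rw [e1, hπ, ← avg_mul_right]
    refine avg_abs_le fun ψ _ => ?_
    rw [abs_mul, abs_of_nonneg (hone0 ψ), mul_comm]
    by_cases hψ : σ ψ = v
    · exact mul_le_mul_of_nonneg_left (hlip φ ψ hφ hψ) (hone0 ψ)
    · have : one ψ = 0 := if_neg hψ
      rw [this, zero_mul, zero_mul]
  have e3 : π * |Pa s x κ lab q I ϑ φ - μ| = |π * Pa s x κ lab q I ϑ φ - π * μ| := by
    rw [← mul_sub, abs_mul, abs_of_nonneg hπ0]
  rw [e3]
  have e4 : π * Pa s x κ lab q I ϑ φ - π * μ = (π * Pa s x κ lab q I ϑ φ - A) -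
      (avg univ (fun i => Pa s x κ lab q I ϑ (x i) * one (x i)) - A) -
      (avg univ (fun i => ind s lab q I ϑ i * one (x i)) -
      avg univ (fun i => Pa s x κ lab q I ϑ (x i) * one (x i))) +
      (avg univ (fun i => one (x i)) - π) * μ := by
    rw [hA3]
    ring
  rw [e4]
  have h5 : |(avg univ (fun i => one (x i)) - π) * μ| ≤ γ := by
    rw [abs_mul, abs_of_nonneg hμ0]
    exact (mul_le_of_le_one_right (abs_nonneg _) hμ1).trans hA4
  have h6 := abs_add_le ((π * Pa s x κ lab q I ϑ φ - A) -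
      (avg univ (fun i => Pa s x κ lab q I ϑ (x i) * one (x i)) - A) -
      (avg univ (fun i => ind s lab q I ϑ i * one (x i)) -
      avg univ (fun i => Pa s x κ lab q I ϑ (x i) * one (x i))))
      ((avg univ (fun i => one (x i)) - π) * μ)
  have h7 := abs_sub ((π * Pa s x κ lab q I ϑ φ - A) -
      (avg univ (fun i => Pa s x κ lab q I ϑ (x i) * one (x i)) - A))
      (avg univ (fun i => ind s lab q I ϑ i * one (x i)) -
      avg univ (fun i => Pa s x κ lab q I ϑ (x i) * one (x i)))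
  have h8 := abs_sub (π * Pa s x κ lab q I ϑ φ - A)
      (avg univ (fun i => Pa s x κ lab q I ϑ (x i) * one (x i)) - A)
  linarith

/-! ### Assembly -/

/-- The number of templates. -/
def cnt (r Q h k T0 : ℕ) : ℕ := r * Q ^ h * k ^ T0

theorem assemble (h1 : PFLibStmt) (h3 : TVStmt) {r s β T0 Q k L T D N : ℕ} (hL : 1 ≤ L)
    (hr : 1 ≤ r) (hQ : 1 ≤ Q) (hk : 1 ≤ k)
    (hR : RamOK r s T0 (Fintype.card (Idx T0 β)) Q k)
    {γ δ : ℝ} (hγ : 0 ≤ γ) (hδ : 0 ≤ δ)
    (x : Fin N → Pt T D) (κ : Fin k → Fin T) (lab : Fin Q → Finset (Fin k) → Fin N → Fin L)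
    (W : Fin r → Fin Q → Fin Q → Finset (Fin k) → Pt T D → Fin L → Fin L → ℝ)
    (hD : 0 < D) (hPR : PR β k γ x)
    (hcell : ∀ (J : Finset (Fin T)) (a : Pt T D), J.card ≤ β → (cell x J a).Nonempty)
    (hX : XGood β s γ x κ lab)
    (hW : ∀ c p q U φ a b, 0 ≤ W c p q U φ a b) (hW1 : ∀ p q U φ a b, ∑ c, W c p q U φ a b = 1)
    {S : Type} [Fintype S] [DecidableEq S] (σ : Pt T D → S)
    (hσ : ∀ v, PF β ∅ (univ.image κ) (fun φ => if σ φ = v then 1 else 0))
    (hlipP : ∀ q I ϑ φ ψ, I.card = β → σ φ = σ ψ →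
      |Pa s x κ lab q I ϑ φ - Pa s x κ lab q I ϑ ψ| ≤ δ)
    (hlipW : ∀ c p q (U : Finset (Fin k)) φ ψ a b, U.card = s → σ φ = σ ψ →
      |W c p q U φ a b - W c p q U ψ a b| ≤ δ)
    (hsmall : (Fintype.card S : ℝ) * γ < 1) :
    ∃ (c : Fin r) (j0 : Fin T0 → Fin k) (q : Idx T0 β → Fin Q), StrictMono j0 ∧ Injective q ∧
      (1 - Fintype.card S * γ) / (cnt r Q (Fintype.card (Idx T0 β)) k T0 : ℝ) -
        (Fintype.card (Idx T0 β) : ℝ) ^ 2 * δ -
        Fintype.card (Idx T0 β) * Fintype.card (Finset (Fin k) → Fin L) *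
          (δ + 3 * (Fintype.card S * γ)) ≤
        DensW s x κ lab W c j0 q := by
  set h : ℕ := Fintype.card (Idx T0 β) with hh
  set Θc : ℕ := Fintype.card (Finset (Fin k) → Fin L) with hΘ
  set e := Fintype.equivFin (Idx T0 β) with he
  set one : S → Pt T D → ℝ := fun v φ => if σ φ = v then (1 : ℝ) else 0 with hone
  set π : S → ℝ := fun v => avg univ (one v) with hπ
  set Fib : S → Finset (Fin N) := fun v => univ.filter (fun i : Fin N => σ (x i) = v) with hFib
  set good : Finset S := univ.filter (fun v => (Fib v).Nonempty) with hgood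
  have a0 : Pt T D := fun _ => ⟨0, hD⟩
  have hne : (univ : Finset (Pt T D)).Nonempty := ⟨a0, Finset.mem_univ _⟩
  have hone0 : ∀ v φ, 0 ≤ one v φ := by
    intro v φ
    show (0 : ℝ) ≤ if σ φ = v then (1 : ℝ) else 0
    split_ifs
    · exact zero_le_one
    · exact le_refl _
  have hπ0 : ∀ v, 0 ≤ π v := fun v => avg_nonneg fun φ _ => hone0 v φ
  have hsum1 : ∑ v, π v = 1 := by
    show ∑ v, avg univ (one v) = 1
    rw [← avg_sum]
    have : ∀ φ : Pt T D, ∑ v, one v φ = 1 := by
      intro φ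
      show ∑ v, (if σ φ = v then (1 : ℝ) else 0) = 1
      rw [Finset.sum_ite_eq]
      simp
    simp only [this]
    exact avg_const hne 1
  have hK : (univ.image κ : Finset (Fin T)).card ≤ k :=
    Finset.card_image_le.trans (by rw [Finset.card_univ, Fintype.card_fin])
  have hbad : ∀ v, v ∉ good → π v ≤ γ := by
    intro v hv
    have h4 := pr0 hD hPR hK (hσ v)
    have h5 : avg univ (fun i : Fin N => one v (x i)) = 0 := by
      unfold avg
      rw [Finset.sum_eq_zero, zero_div]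
      intro i _
      show (if σ (x i) = v then (1 : ℝ) else 0) = 0
      rw [if_neg]
      intro hi
      apply hv
      rw [hgood, Finset.mem_filter]
      exact ⟨Finset.mem_univ _, i, Finset.mem_filter.2 ⟨Finset.mem_univ _, hi⟩⟩
    have h6 : |avg univ (fun i : Fin N => one v (x i)) - avg univ (one v)| ≤ γ := h4
    rw [h5, zero_sub, abs_neg] at h6
    exact (le_abs_self _).trans h6
  have hgoodsum : 1 - Fintype.card S * γ ≤ ∑ v ∈ good, π v := by
    have h5 : ∑ v ∈ good, π v + ∑ v ∈ goodᶜ, π v = 1 := by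
      rw [Finset.sum_add_sum_compl, hsum1]
    have h6 : ∑ v ∈ goodᶜ, π v ≤ ∑ _v ∈ goodᶜ, γ :=
      Finset.sum_le_sum fun v hv => hbad v (Finset.mem_compl.1 hv)
    rw [Finset.sum_const, nsmul_eq_mul] at h6
    have h7 : ((goodᶜ).card : ℝ) * γ ≤ Fintype.card S * γ := by
      refine mul_le_mul_of_nonneg_right ?_ hγ
      exact_mod_cast Finset.card_le_univ _
    linarith
  -- representatives
  have hrep : ∀ v : S, ∃ φ : Pt T D, v ∈ good → σ φ = v := by
    intro v
    by_cases hv : v ∈ good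
    · obtain ⟨i, hi⟩ := (Finset.mem_filter.1 hv).2
      exact ⟨x i, fun _ => (Finset.mem_filter.1 hi).2⟩
    · exact ⟨a0, fun h' => absurd h' hv⟩
  choose rep hrep using hrep
  set Gs : Finset (Fin h → Fin Q) := univ.filter (fun g => StrictMono g) with hGs
  set Js : Finset (Fin T0 → Fin k) := univ.filter (fun j => StrictMono j) with hJs
  set V' : S → Fin r → (Fin h → Fin Q) → (Fin T0 → Fin k) → ℝ := fun v c g j =>
    avg (Fintype.piFinset (fun _ : Idx T0 β => Fib v))
      (FF s (fun c p q U a b => W c p q U (rep v) a b) lab c j (fun I => g (e I))) with hV'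
  have hV'0 : ∀ v c g j, 0 ≤ V' v c g j := fun v c g j =>
    avg_nonneg fun y _ => FF_nonneg _ _ (fun _ _ _ _ _ _ => hW _ _ _ _ _ _ _) _ _ _ _ _
  have hVsum : ∀ v ∈ good, 1 ≤ ∑ c : Fin r, ∑ g ∈ Gs, ∑ j ∈ Js, V' v c g j := by
    intro v hv
    exact ram_avg s hR (fun c p q U a b => W c p q U (rep v) a b)
      (fun _ _ _ _ _ _ => hW _ _ _ _ _ _ _) (fun _ _ _ _ _ => hW1 _ _ _ _ _ _) lab (Fib v)
      (Finset.mem_filter.1 hv).2
  -- pigeonhole
  set TT : Finset (Fin r × (Fin h → Fin Q) × (Fin T0 → Fin k)) := univ ×ˢ (Gs ×ˢ Js) with hTT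
  have hTTsum : ∀ f : Fin r → (Fin h → Fin Q) → (Fin T0 → Fin k) → ℝ,
      ∑ t ∈ TT, f t.1 t.2.1 t.2.2 = ∑ c : Fin r, ∑ g ∈ Gs, ∑ j ∈ Js, f c g j := by
    intro f
    rw [hTT, Finset.sum_product]
    refine Finset.sum_congr rfl fun c _ => ?_
    rw [Finset.sum_product]
  have hTTcard : TT.card ≤ cnt r Q h k T0 := by
    rw [hTT, Finset.card_product, Finset.card_product]
    unfold cnt
    have h5 : Gs.card ≤ Q ^ h := by
      refine (Finset.card_le_univ _).trans (le_of_eq ?_)
      rw [Fintype.card_fun, Fintype.card_fin, Fintype.card_fin]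
    have h6 : Js.card ≤ k ^ T0 := by
      refine (Finset.card_le_univ _).trans (le_of_eq ?_)
      rw [Fintype.card_fun, Fintype.card_fin, Fintype.card_fin]
    rw [Finset.card_univ, Fintype.card_fin, mul_assoc]
    exact Nat.mul_le_mul_left _ (Nat.mul_le_mul h5 h6)
  have hcnt : (0 : ℝ) < (cnt r Q h k T0 : ℝ) := by
    unfold cnt
    have : 0 < r * Q ^ h * k ^ T0 := by positivity
    exact_mod_cast this
  set m : ℝ := (1 - Fintype.card S * γ) / (cnt r Q h k T0 : ℝ) with hm
  have hm0 : 0 < m := div_pos (by linarith) hcnt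
  have htot : 1 - Fintype.card S * γ ≤ ∑ t ∈ TT, ∑ v ∈ good, π v * V' v t.1 t.2.1 t.2.2 := by
    rw [Finset.sum_comm]
    refine hgoodsum.trans (Finset.sum_le_sum fun v hv => ?_)
    rw [← Finset.mul_sum, hTTsum (fun c g j => V' v c g j)]
    exact le_mul_of_one_le_right (hπ0 v) (hVsum v hv)
  have hex : ∃ t ∈ TT, m ≤ ∑ v ∈ good, π v * V' v t.1 t.2.1 t.2.2 := by
    by_contra hcon
    push Not at hcon
    have h5 : TT.Nonempty := by
      by_contra h6
      rw [Finset.not_nonempty_iff_eq_empty] at h6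
      rw [h6, Finset.sum_empty] at htot
      linarith
    have h6 := Finset.sum_lt_sum_of_nonempty h5 hcon
    rw [Finset.sum_const, nsmul_eq_mul] at h6
    have h7 : (TT.card : ℝ) * m ≤ (cnt r Q h k T0 : ℝ) * m :=
      mul_le_mul_of_nonneg_right (by exact_mod_cast hTTcard) hm0.le
    have h8 : (cnt r Q h k T0 : ℝ) * m = 1 - Fintype.card S * γ := by
      rw [hm]
      field_simp
    linarith
  obtain ⟨⟨c, g, j⟩, ht, htm⟩ := hex
  rw [hTT, Finset.mem_product, Finset.mem_product] at ht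
  have hg : StrictMono g := (Finset.mem_filter.1 ht.2.1).2
  have hj : StrictMono j := (Finset.mem_filter.1 ht.2.2).2
  refine ⟨c, j, fun I => g (e I), hj, hg.injective.comp e.injective, ?_⟩
  -- the density
  set X : Pt T D → ℝ := fun φ => avg (Fintype.piFinset (fun I : Idx T0 β =>
    cell x ((I.1.image j).image κ) φ))
      (FF s (fun c p q U a b => W c p q U φ a b) lab c j (fun I => g (e I))) with hXdef
  have hdens : DensW s x κ lab W c j (fun I => g (e I)) = avg univ X := rfl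
  rw [hdens]
  have hX0 : ∀ φ, 0 ≤ X φ := fun φ =>
    avg_nonneg fun y _ => FF_nonneg _ _ (fun _ _ _ _ _ _ => hW _ _ _ _ _ _ _) _ _ _ _ _
  set err : S → ℝ := fun v => π v * ((h : ℝ) ^ 2 * δ) + h * Θc * (π v * δ + 3 * γ) with herr
  have hcn : ∀ (φ : Pt T D) (I : Idx T0 β), (cell x ((I.1.image j).image κ) φ).Nonempty := by
    intro φ I
    apply hcell
    exact (Finset.card_image_le.trans Finset.card_image_le).trans I.2.le
  have hkey : ∀ v ∈ good, ∀ φ, σ φ = v → π v * V' v c g j - err v ≤ π v * X φ := by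
    intro v hv φ hφ
    have hrv := hrep v hv
    have hFv : (Fib v).Nonempty := (Finset.mem_filter.1 hv).2
    -- change W
    have s1 : |X φ - avg (Fintype.piFinset (fun I : Idx T0 β =>
        cell x ((I.1.image j).image κ) φ))
        (FF s (fun c p q U a b => W c p q U (rep v) a b) lab c j (fun I => g (e I)))| ≤
        (h : ℝ) ^ 2 * δ := by
      have hne2 : (Fintype.piFinset (fun I : Idx T0 β =>
        cell x ((I.1.image j).image κ) φ)).Nonempty := by
        rw [Fintype.piFinset_nonempty]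
        exact hcn φ
      rw [← avg_sub, ← avg_const hne2 ((h : ℝ) ^ 2 * δ)]
      refine avg_abs_le fun y _ => ?_
      exact FF_lip s δ (fun c p q U a b => W c p q U φ a b)
        (fun c p q U a b => W c p q U (rep v) a b) (fun _ _ _ _ _ _ => hW _ _ _ _ _ _ _)
        (fun _ _ _ _ _ => hW1 _ _ _ _ _ _) (fun _ _ _ _ _ _ => hW _ _ _ _ _ _ _)
        (fun _ _ _ _ _ => hW1 _ _ _ _ _ _)
        (fun c p q U a b hU => hlipW c p q U φ (rep v) a b hU (hφ.trans hrv.symm)) hδ lab c j
        hj.injective _ y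
    -- change the cells
    have s2 := FF_tv h3 s hL (fun c p q U a b => W c p q U (rep v) a b)
      (fun _ _ _ _ _ _ => hW _ _ _ _ _ _ _) (fun _ _ _ _ _ => hW1 _ _ _ _ _ _) lab c j
      hj.injective (fun I => g (e I)) (fun I : Idx T0 β => cell x ((I.1.image j).image κ) φ)
      (fun _ => Fib v) (hcn φ) (fun _ => hFv)
    have s3 : π v * ∑ I : Idx T0 β, ∑ ϑ : Finset (Fin k) → Fin L,
        |avg (cell x ((I.1.image j).image κ) φ) (ind s lab (g (e I)) (I.1.image j) ϑ) -
        avg (Fib v) (ind s lab (g (e I)) (I.1.image j) ϑ)| ≤ h * Θc * (π v * δ + 3 * γ) := by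
      rw [Finset.mul_sum]
      have s4 : ∀ I ∈ (univ : Finset (Idx T0 β)), π v * ∑ ϑ : Finset (Fin k) → Fin L,
          |avg (cell x ((I.1.image j).image κ) φ) (ind s lab (g (e I)) (I.1.image j) ϑ) -
          avg (Fib v) (ind s lab (g (e I)) (I.1.image j) ϑ)| ≤ Θc * (π v * δ + 3 * γ) := by
        intro I _
        rw [Finset.mul_sum]
        have s5 : ∀ ϑ ∈ (univ : Finset (Finset (Fin k) → Fin L)), π v *
            |avg (cell x ((I.1.image j).image κ) φ) (ind s lab (g (e I)) (I.1.image j) ϑ) -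
            avg (Fib v) (ind s lab (g (e I)) (I.1.image j) ϑ)| ≤ π v * δ + 3 * γ := by
          intro ϑ _
          have hIc : (I.1.image j).card = β := by
            rw [Finset.card_image_of_injective _ hj.injective]
            exact I.2
          exact corr h1 x κ lab hD hPR hX σ v (hσ v) (g (e I)) (I.1.image j) ϑ hIc
            (fun φ ψ hφ hψ => hlipP _ _ _ _ _ hIc (hφ.trans hψ.symm)) hFv φ hφ
        refine (Finset.sum_le_sum s5).trans (le_of_eq ?_)
        rw [Finset.sum_const, nsmul_eq_mul, Finset.card_univ]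
      refine (Finset.sum_le_sum s4).trans (le_of_eq ?_)
      rw [Finset.sum_const, nsmul_eq_mul, Finset.card_univ]
      ring
    have s6 : V' v c g j - (h : ℝ) ^ 2 * δ - ∑ I : Idx T0 β, ∑ ϑ : Finset (Fin k) → Fin L,
        |avg (cell x ((I.1.image j).image κ) φ) (ind s lab (g (e I)) (I.1.image j) ϑ) -
        avg (Fib v) (ind s lab (g (e I)) (I.1.image j) ϑ)| ≤ X φ := by
      have b1 := (abs_le.1 s1).1
      have b2 := (abs_le.1 s2).1
      show avg (Fintype.piFinset (fun _ : Idx T0 β => Fib v))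
        (FF s (fun c p q U a b => W c p q U (rep v) a b) lab c j (fun I => g (e I))) - _ - _ ≤ _
      linarith
    have s7 := mul_le_mul_of_nonneg_left s6 (hπ0 v)
    have s8 : err v = π v * ((h : ℝ) ^ 2 * δ) + h * Θc * (π v * δ + 3 * γ) := rfl
    rw [s8]
    nlinarith [s7, s3]
  have hB : ∀ v ∈ good, π v * V' v c g j - err v ≤ avg univ (fun φ => one v φ * X φ) := by
    intro v hv
    have hπv : 0 < π v := by
      have hrv := hrep v hv
      show 0 < avg univ (one v)
      unfold avg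
      refine div_pos ?_ (by exact_mod_cast hne.card_pos)
      refine Finset.sum_pos' (fun φ _ => hone0 v φ) ⟨rep v, Finset.mem_univ _, ?_⟩
      show (0 : ℝ) < if σ (rep v) = v then (1 : ℝ) else 0
      rw [if_pos hrv]
      exact zero_lt_one
    have h5 : π v * (π v * V' v c g j - err v) ≤ π v * avg univ (fun φ => one v φ * X φ) := by
      have e1 : π v * (π v * V' v c g j - err v) =
          avg univ (fun φ => one v φ * (π v * V' v c g j - err v)) := by
        rw [avg_mul_right]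
      have e2 : π v * avg univ (fun φ => one v φ * X φ) =
          avg univ (fun φ => π v * (one v φ * X φ)) := (avg_mul_left _ _ _).symm
      rw [e1, e2]
      refine avg_mono fun φ _ => ?_
      by_cases hφ : σ φ = v
      · have h6 := hkey v hv φ hφ
        have h7 : one v φ = 1 := if_pos hφ
        rw [h7]
        linarith
      · have h7 : one v φ = 0 := if_neg hφ
        rw [h7]
        simp
    exact le_of_mul_le_mul_left h5 hπv
  have hfin : avg univ X = ∑ v, avg univ (fun φ => one v φ * X φ) := by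
    rw [← avg_sum]
    congr 1
    funext φ
    rw [← Finset.sum_mul]
    have : ∑ v, one v φ = 1 := by
      show ∑ v, (if σ φ = v then (1 : ℝ) else 0) = 1
      rw [Finset.sum_ite_eq]
      simp
    rw [this, one_mul]
  rw [hfin]
  have h10 : ∑ v ∈ good, avg univ (fun φ => one v φ * X φ) ≤
      ∑ v, avg univ (fun φ => one v φ * X φ) :=
    Finset.sum_le_sum_of_subset_of_nonneg (Finset.subset_univ _) fun v _ _ =>
      avg_nonneg fun φ _ => mul_nonneg (hone0 v φ) (hX0 φ)
  refine le_trans ?_ h10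
  refine le_trans ?_ (Finset.sum_le_sum hB)
  rw [Finset.sum_sub_distrib]
  have h11 : ∑ v ∈ good, err v = (∑ v ∈ good, π v) * ((h : ℝ) ^ 2 * δ + h * Θc * δ) +
      good.card * (h * Θc * (3 * γ)) := by
    have e1 : (good.card : ℝ) * (h * Θc * (3 * γ)) = ∑ _v ∈ good, (h * Θc * (3 * γ) : ℝ) := by
      rw [Finset.sum_const, nsmul_eq_mul]
    rw [Finset.sum_mul, e1, ← Finset.sum_add_distrib]
    refine Finset.sum_congr rfl fun v _ => ?_
    show π v * ((h : ℝ) ^ 2 * δ) + h * Θc * (π v * δ + 3 * γ) = _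
    ring
  rw [h11]
  have h12 : ∑ v ∈ good, π v ≤ 1 := by
    rw [← hsum1]
    exact Finset.sum_le_sum_of_subset_of_nonneg (Finset.subset_univ _) fun v _ _ => hπ0 v
  have h13 : (good.card : ℝ) ≤ Fintype.card S := by exact_mod_cast Finset.card_le_univ _
  have h14 : (∑ v ∈ good, π v) * ((h : ℝ) ^ 2 * δ + h * Θc * δ) ≤
      (h : ℝ) ^ 2 * δ + h * Θc * δ := mul_le_of_le_one_left (by positivity) h12
  have h15 : (good.card : ℝ) * (h * Θc * (3 * γ)) ≤ Fintype.card S * (h * Θc * (3 * γ)) :=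
    mul_le_mul_of_nonneg_right h13 (by positivity)
  have h16 : m ≤ ∑ v ∈ good, π v * V' v c g j := htm
  have h17 : (h : ℝ) * Θc * (δ + 3 * (Fintype.card S * γ)) =
      h * Θc * δ + Fintype.card S * (h * Θc * (3 * γ)) := by ring
  rw [h17]
  linarith

theorem final_ineq {n H Θ t δ : ℝ} (hn : 1 ≤ n) (hH : 0 ≤ H) (hΘ : 0 ≤ Θ)
    (ht : t = 1 / (8 * (1 + 3 * (H * Θ)) * n)) (_hδ0 : 0 ≤ δ)
    (hδ : δ * (8 * n * (H ^ 2 + H * Θ)) ≤ 1) :
    1 / (2 * n) ≤ (1 - t) / n - H ^ 2 * δ - H * Θ * (δ + 3 * t) := by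
  have hn0 : 0 < n := by linarith
  have hHΘ : 0 ≤ H * Θ := mul_nonneg hH hΘ
  have hd : 0 < 8 * (1 + 3 * (H * Θ)) * n := by positivity
  have ht0 : 0 < t := by rw [ht]; positivity
  have ht1 : t * (8 * (1 + 3 * (H * Θ)) * n) = 1 := by
    rw [ht]
    field_simp
  have ht2 : t ≤ 1 / 8 := by
    have h1 : 8 ≤ 8 * (1 + 3 * (H * Θ)) * n := by nlinarith
    nlinarith
  have e : (1 - t) / n - H ^ 2 * δ - H * Θ * (δ + 3 * t) =
      ((1 - t) - n * (H ^ 2 + H * Θ) * δ - 3 * (H * Θ) * t * n) / n := by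
    field_simp
    ring
  rw [e, div_le_div_iff₀ (by positivity) hn0]
  have h3 : n * (H ^ 2 + H * Θ) * δ ≤ 1 / 8 := by linarith
  have h4 : 3 * (H * Θ) * t * n ≤ 1 / 8 := by
    have : t * (8 * (1 + 3 * (H * Θ)) * n) = 8 * (t * n) + 8 * (3 * (H * Θ) * t * n) := by ring
    rw [this] at ht1
    have : 0 ≤ t * n := by positivity
    linarith
  nlinarith

theorem virt (h1 : PFLibStmt) (h2 : RndStmt) (h3 : TVStmt) : VirtStmt := by
  intro r s β T0 Q k L hr hsβ hQ hk hβk hL hR
  set h : ℕ := Fintype.card (Idx T0 β) with hh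
  set Θc : ℕ := Fintype.card (Finset (Fin k) → Fin L) with hΘ
  set n : ℕ := cnt r Q h k T0 with hn
  have hn1 : 1 ≤ n := by
    rw [hn]
    unfold cnt
    have : 0 < r * Q ^ h * k ^ T0 := by positivity
    exact this
  set R : ℕ := 8 * n * (h ^ 2 + h * Θc) + 1 with hRdef
  set ι : Type := (Fin Q × {I : Finset (Fin k) // I.card = β} × (Finset (Fin k) → Fin L)) ⊕
    (Fin r × Fin Q × Fin Q × {U : Finset (Fin k) // U.card = s} × Fin L × Fin L) with hι
  set Sc : ℕ := Fintype.card (ι → Fin (R + 1)) with hSc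
  have hSc1 : 1 ≤ Sc := by
    rw [hSc]
    exact Fintype.card_pos
  have hn0 : (1 : ℝ) ≤ n := by exact_mod_cast hn1
  have hS0 : (1 : ℝ) ≤ Sc := by exact_mod_cast hSc1
  refine ⟨1 / (8 * (1 + 3 * ((h : ℝ) * Θc)) * n) / Sc, by positivity, ?_⟩
  intro T D N x κ lab W hN hD hκ hPR hcell hX hW hW1 hdep
  set γ : ℝ := 1 / (8 * (1 + 3 * ((h : ℝ) * Θc)) * n) / Sc with hγ
  have hγ0 : 0 ≤ γ := by rw [hγ]; positivity
  have hSγ : (Sc : ℝ) * γ = 1 / (8 * (1 + 3 * ((h : ℝ) * Θc)) * n) := by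
    rw [hγ]
    field_simp
  have hSγ1 : (Sc : ℝ) * γ < 1 := by
    rw [hSγ, div_lt_one (by positivity)]
    have : (0 : ℝ) ≤ (h : ℝ) * Θc := by positivity
    nlinarith
  obtain ⟨σ, hσ1, hσ2⟩ := h2 β T D (univ.image κ) ι
    (Sum.elim (fun i => Pa s x κ lab i.1 i.2.1.1 i.2.2)
      (fun i => fun φ => W i.1 i.2.1 i.2.2.1 i.2.2.2.1.1 φ i.2.2.2.2.1 i.2.2.2.2.2))
    (Sum.elim (fun i => i.2.1.1.image κ) (fun i => i.2.2.2.1.1.image κ)) R (by omega)
    (by
      rintro (i | i) φ
      · exact Pa_mem s x κ lab i.1 i.2.1.1 i.2.2 φ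
      · exact ⟨hW _ _ _ _ _ _ _, w_le_one (fun c p q U a b => W c p q U φ a b)
          (fun _ _ _ _ _ _ => hW _ _ _ _ _ _ _) (fun _ _ _ _ _ => hW1 _ _ _ _ _ _) _ _ _ _ _ _⟩)
    (by
      rintro (i | i)
      · exact Pa_dep s x κ lab i.1 i.2.1.1 i.2.2
      · exact hdep _ _ _ _ _ _)
    (by
      rintro (i | i)
      · exact ⟨Finset.card_image_le.trans i.2.1.2.le,
          Finset.image_subset_image (Finset.subset_univ _)⟩
      · exact ⟨Finset.card_image_le.trans (i.2.2.2.1.2.le.trans hsβ.le),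
          Finset.image_subset_image (Finset.subset_univ _)⟩)
  have hRpos : (0 : ℝ) < R := by
    have : 0 < R := by omega
    exact_mod_cast this
  obtain ⟨c, j0, q, hj, hq, hfin⟩ := assemble h1 h3 hL hr hQ hk hR hγ0
    (δ := 1 / (R : ℝ)) (by positivity) x κ lab W hD hPR hcell hX hW hW1 σ hσ2
    (fun q I ϑ φ ψ hI hφ => hσ1 (Sum.inl (q, ⟨I, hI⟩, ϑ)) φ ψ hφ)
    (fun c p q U φ ψ a b hU hφ => hσ1 (Sum.inr (c, p, q, ⟨U, hU⟩, a, b)) φ ψ hφ) hSγ1
  refine ⟨c, j0, q, hj, hq, ?_⟩
  refine le_trans ?_ hfin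
  have hδ : 1 / (R : ℝ) * (8 * n * ((h : ℝ) ^ 2 + h * Θc)) ≤ 1 := by
    rw [one_div, inv_mul_le_iff₀ hRpos, mul_one, hRdef]
    push_cast
    linarith
  have key := final_ineq hn0 (by positivity : (0 : ℝ) ≤ h) (by positivity : (0 : ℝ) ≤ Θc) hSγ
    (by positivity : (0 : ℝ) ≤ 1 / (R : ℝ)) hδ
  refine le_trans (le_of_eq ?_) key
  rw [hn]
  unfold cnt
  push_cast
  ring

end Pool.Agent.Helper26.PU
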